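import Pool.Agent.H405Z.Bog.Defs
import Pool.Agent.H405Z.Bog.Main

/-!
The Bogomolov property of all finite extensions of `F` does not pass to `F^(d)`.

`F` is generated by the totally real numbers `θ + 1/θ`, where `θ` runs over the roots of
`n X^(2 n^2) + (2n-1) X^(n^2) + n` for a sequence of `n` with pairwise coprime `n (4n-1)`. The
numbers `θ` are quadratic over `F`, are not roots of unity and have height at most `4/n`. In a
finite extension of `F`, inertia groups fix a bounded power of a small point; since the ramified
primes of the layers are disjoint and inertia groups generate Galois groups over the rationals,
that power is totally real.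
-/

set_option autoImplicit false

namespace Pool.Agent.Results.MP_329b50_nt.Counterexample

open Pool.Agent.H405Z.Bog

/-- With base field the rationals and the multiplicative group: there is a Galois extension `F` of
the rationals all of whose finite extensions have the Bogomolov property, while `F^(d)` does not
have it for any `d ≥ 2`. -/
theorem result : ∃ F : IntermediateField ℚ (AlgebraicClosure ℚ), IsGalois ℚ F ∧
    (∀ L : IntermediateField F (AlgebraicClosure ℚ), FiniteDimensional F L → HasBogomolov L) ∧
    ∀ d : ℕ, 2 ≤ d → ¬ HasBogomolov (compositumDeg F d) :=
  Pool.Agent.H405Z.Bog.main

end Pool.Agent.Results.MP_329b50_nt.Counterexample
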